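import Pool.Agent.Helper6.TRI.GDefs

/-!
# TRI, block G10: on a line with many relations there are two nodes
-/

set_option autoImplicit false
set_option linter.unusedSectionVars false

namespace Pool.Agent.TRI

open Module MvPolynomial

universe u

/-! ### relations between linear polynomials -/

section

variable {κ E : Type*} [Field κ] [Field E] [Algebra κ E]

/-- A nontrivial relation with different roots. -/
private theorem rel71 {q : ℕ} (y : E) (hy : Transcendental κ y) (A B : Fin q → κ) (hAB : ∀ i, A i ≠ 0 ∨ B i ≠ 0) (a : Fin q → ℤ)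
    (hR : ∀ i j, a i ≠ 0 → a j ≠ 0 → A i * B j = A j * B i → i = j) (hs : ∑ i, a i = 0) (c : κ)
    (hc : ∏ i, (algebraMap κ E (A i) + algebraMap κ E (B i) * y) ^ a i = algebraMap κ E c) : a = 0 := by
  classical
  by_contra h0
  have hne : ∀ i, algebraMap κ E (A i) + algebraMap κ E (B i) * y ≠ 0 := by
    intro i hi
    have h1 : Polynomial.aeval y (Polynomial.C (A i) + Polynomial.C (B i) * Polynomial.X) = 0 := by
      rw [map_add, map_mul, Polynomial.aeval_C, Polynomial.aeval_C, Polynomial.aeval_X]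
      exact hi
    have h2 := (transcendental_iff.1 hy) _ h1
    have h3 : A i = 0 := by
      have := congrArg (fun p => Polynomial.coeff p 0) h2
      simpa using this
    have h4 : B i = 0 := by
      have := congrArg (fun p => Polynomial.coeff p 1) h2
      simpa [Polynomial.coeff_C] using this
    rcases hAB i with h | h
    · exact h h3
    · exact h h4
  -- an index with a finite root
  obtain ⟨i, hai, hBi⟩ : ∃ i, a i ≠ 0 ∧ B i ≠ 0 := by
    by_contra hcon
    push Not at hcon
    obtain ⟨i, hi⟩ : ∃ i, a i ≠ 0 := by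
      by_contra h
      push Not at h
      exact h0 (funext h)
    have h1 : ∀ j, j ≠ i → a j = 0 := by
      intro j hj
      by_contra h2
      exact hj (hR j i h2 hi (by rw [hcon i hi, hcon j h2, mul_zero, mul_zero]))
    rw [Finset.sum_eq_single i (fun j _ hj => h1 j hj) (fun h => absurd (Finset.mem_univ i) h)] at hs
    exact hi hs
  have hc0 : c ≠ 0 := by
    rintro rfl
    rw [map_zero] at hc
    obtain ⟨j, _, hj⟩ := Finset.prod_eq_zero_iff.1 hc
    exact zpow_ne_zero _ (hne j) hj
  let lin : Fin q → Polynomial κ := fun j => Polynomial.C (A j) + Polynomial.C (B j) * Polynomial.X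
  have hlin : ∀ j, Polynomial.aeval y (lin j) = algebraMap κ E (A j) + algebraMap κ E (B j) * y := by
    intro j
    rw [map_add, map_mul, Polynomial.aeval_C, Polynomial.aeval_C, Polynomial.aeval_X]
  have hpoly : ∏ j, lin j ^ (a j).toNat = Polynomial.C c * ∏ j, lin j ^ (-a j).toNat := by
    rw [← sub_eq_zero]
    refine (transcendental_iff.1 hy) _ ?_
    rw [map_sub, map_mul, map_prod, map_prod, Polynomial.aeval_C, ← hc, ← Finset.prod_mul_distrib, sub_eq_zero]
    refine Finset.prod_congr rfl fun j _ => ?_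
    rw [map_pow, map_pow, hlin, ← zpow_natCast, ← zpow_natCast, ← zpow_add₀ (hne j)]
    congr 1
    omega
  have hev : ∀ j, Polynomial.eval (-A i / B i) (lin j) = A j + B j * (-A i / B i) := by
    intro j
    simp [lin]
  have hi0 : Polynomial.eval (-A i / B i) (lin i) = 0 := by
    rw [hev]
    field_simp
    ring
  have hj0 : ∀ j, a j ≠ 0 → j ≠ i → Polynomial.eval (-A i / B i) (lin j) ≠ 0 := by
    intro j haj hj h1
    rw [hev] at h1
    apply hj
    refine hR j i haj hai ?_
    field_simp at h1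
    linear_combination h1
  have h2 := congrArg (Polynomial.eval (-A i / B i)) hpoly
  rw [Polynomial.eval_mul, Polynomial.eval_C, Polynomial.eval_prod, Polynomial.eval_prod] at h2
  have hprod : ∀ b : Fin q → ℤ, (∀ j, b j ≠ 0 → a j ≠ 0) → b i ≤ 0 → ∏ j, Polynomial.eval (-A i / B i) (lin j ^ (b j).toNat) ≠ 0 := by
    intro b hb hbi
    refine Finset.prod_ne_zero_iff.2 fun j _ => ?_
    rw [Polynomial.eval_pow]
    by_cases hj : j = i
    · subst hj
      rw [Int.toNat_of_nonpos hbi, pow_zero]
      exact one_ne_zero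
    · by_cases h3 : b j = 0
      · rw [h3]
        simp
      · exact pow_ne_zero _ (hj0 j (hb j h3) hj)
  have hzero : ∀ b : Fin q → ℤ, 0 < b i → ∏ j, Polynomial.eval (-A i / B i) (lin j ^ (b j).toNat) = 0 := by
    intro b hb
    refine Finset.prod_eq_zero (Finset.mem_univ i) ?_
    rw [Polynomial.eval_pow, hi0, zero_pow]
    omega
  rcases lt_or_gt_of_ne hai with h3 | h3
  · have h4 := hprod a (fun j h => h) h3.le
    have h5 := hzero (fun j => -a j) (by show 0 < -a i; omega)
    rw [h2, h5, mul_zero] at h4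
    exact h4 rfl
  · have h4 := hprod (fun j => -a j) (fun j h => by simpa using h) (by show -a i ≤ 0; omega)
    have h5 := hzero a h3
    rw [h5] at h2
    exact (mul_ne_zero hc0 h4) h2.symm

/-- a nonzero integral solution supported on the set `T` -/
private theorem kernel71 {p q : ℕ} (M : Fin p → Fin q → ℕ) (T : Finset (Fin q)) (hT : p < T.card) :
    ∃ a : Fin q → ℤ, a ≠ 0 ∧ (∀ i, i ∉ T → a i = 0) ∧ ∀ s, ∑ i, a i * M s i = 0 := by
  classical
  let e : Fin T.card ≃ T := T.equivFin.symm
  let F : (Fin T.card → ℤ) →ₗ[ℤ] (Fin p → ℤ) := LinearMap.pi fun s => ∑ j, (M s (e j) : ℤ) • LinearMap.proj j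
  have hF : ∀ b s, F b s = ∑ j, (M s (e j) : ℤ) * b j := by
    intro b s
    simp [F]
  have hinj : ¬ Function.Injective F := fun h => by
    have := le_of_fin_injective ℤ F h
    omega
  rw [← LinearMap.ker_eq_bot, Submodule.eq_bot_iff] at hinj
  push Not at hinj
  obtain ⟨b, hb, hb0⟩ := hinj
  rw [LinearMap.mem_ker] at hb
  let a : Fin q → ℤ := fun i => if h : i ∈ T then b (e.symm ⟨i, h⟩) else 0
  have ha : ∀ j, a (e j) = b j := by
    intro j
    show (if h : (e j : Fin q) ∈ T then b (e.symm ⟨e j, h⟩) else 0) = b j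
    rw [dif_pos (e j).2]
    congr 1
    exact e.symm_apply_apply j
  refine ⟨a, ?_, fun i hi => dif_neg hi, fun s => ?_⟩
  · intro h
    apply hb0
    funext j
    rw [← ha, h]
    rfl
  · have h1 : ∑ i, a i * M s i = ∑ i ∈ T, a i * M s i := by
      refine (Finset.sum_subset (Finset.subset_univ T) fun i _ hi => ?_).symm
      have : a i = 0 := dif_neg hi
      rw [this, zero_mul]
    rw [h1, ← Finset.sum_coe_sort T fun i => a i * (M s i : ℤ), ← Equiv.sum_comp e]
    have h2 := congrFun hb s
    rw [hF] at h2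
    rw [Pi.zero_apply] at h2
    rw [← h2]
    exact Finset.sum_congr rfl fun j _ => by rw [ha]; ring

/-! ### the parametrisation of the line -/

/-- `ξ = α + y β` -/
private theorem param71 {κ E : Type*} [Field κ] [Field E] [Algebra κ E] {N : ℕ} (ξ : Fin (N + 1) → E) (h1 : ∃ j, ξ j = 1)
    (hn : ∃ j, ξ j ∉ Set.range (algebraMap κ E)) (h2 : finrank κ (Submodule.span κ (Set.range ξ)) ≤ 2) :
    ∃ (y : E) (α β : Fin (N + 1) → κ) (j₀ j₁ : Fin (N + 1)), y ∉ Set.range (algebraMap κ E) ∧
      (∀ j, ξ j = algebraMap κ E (α j) + algebraMap κ E (β j) * y) ∧ α j₀ = 1 ∧ β j₀ = 0 ∧ α j₁ = 0 ∧ β j₁ = 1 := by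
  classical
  obtain ⟨j₀, hj₀⟩ := h1
  obtain ⟨j₁, hj₁⟩ := hn
  have hind : ∀ s t : κ, algebraMap κ E s + algebraMap κ E t * ξ j₁ = 0 → s = 0 ∧ t = 0 := by
    intro s t h
    have ht : t = 0 := by
      by_contra ht
      apply hj₁
      refine ⟨-s / t, ?_⟩
      have ht' : algebraMap κ E t ≠ 0 := (map_ne_zero _).2 ht
      rw [map_div₀, map_neg]
      field_simp
      linear_combination -h
    refine ⟨?_, ht⟩
    rw [ht, map_zero, zero_mul, add_zero] at h
    exact (map_eq_zero _).1 h
  have hli : LinearIndependent κ ![(1 : E), ξ j₁] := by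
    rw [LinearIndependent.pair_iff]
    intro s t h
    apply hind
    rw [← h, Algebra.smul_def, Algebra.smul_def, mul_one]
  have hS : Submodule.span κ {(1 : E), ξ j₁} = Submodule.span κ (Set.range ξ) := by
    have hfin : FiniteDimensional κ (Submodule.span κ (Set.range ξ)) := FiniteDimensional.span_of_finite κ (Set.finite_range ξ)
    refine Submodule.eq_of_le_of_finrank_le ?_ ?_
    · rw [Submodule.span_le]
      rintro x hx
      rcases hx with rfl | hx
      · exact Submodule.subset_span ⟨j₀, hj₀⟩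
      · rw [Set.mem_singleton_iff.1 hx]
        exact Submodule.subset_span ⟨j₁, rfl⟩
    · have h3 := finrank_span_eq_card hli
      rw [Matrix.range_cons_cons_empty, Fintype.card_fin] at h3
      rw [h3]
      exact h2
  have hmem : ∀ j, ∃ a b : κ, a • (1 : E) + b • ξ j₁ = ξ j := by
    intro j
    have h3 : ξ j ∈ Submodule.span κ {(1 : E), ξ j₁} := by
      rw [hS]
      exact Submodule.subset_span ⟨j, rfl⟩
    exact Submodule.mem_span_pair.1 h3
  choose α β hαβ using hmem
  have hξ : ∀ j, ξ j = algebraMap κ E (α j) + algebraMap κ E (β j) * ξ j₁ := by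
    intro j
    conv_lhs => rw [← hαβ j]
    rw [Algebra.smul_def, Algebra.smul_def, mul_one]
  have h3 := hind (α j₀ - 1) (β j₀) (by
    rw [map_sub, map_one]
    have := hξ j₀
    rw [hj₀] at this
    linear_combination -this)
  have h4 := hind (α j₁) (β j₁ - 1) (by
    rw [map_sub, map_one]
    have := hξ j₁
    linear_combination -this)
  exact ⟨ξ j₁, α, β, j₀, j₁, hj₁, hξ, sub_eq_zero.1 h3.1, h3.2, h4.1, sub_eq_zero.1 h4.2⟩

private theorem scale71 {k₀ κ : Type*} [Field k₀] [Field κ] [Algebra k₀ κ] {N d : ℕ} (g : MvPolynomial (Fin N) k₀)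
    (hg : g.IsHomogeneous d) (s : κ) (f : Fin N → κ) : aeval (fun j => s * f j) g = s ^ d * aeval f g := by
  rw [aeval_def, aeval_def, eval₂_eq', eval₂_eq', Finset.mul_sum]
  refine Finset.sum_congr rfl fun m hm => ?_
  have h1 : ∑ j, m j = d := by
    have h2 := hg (mem_support_iff.1 hm)
    rw [← h2, Finsupp.weight_apply, Finsupp.sum_fintype _ _ (by simp)]
    simp
  simp only [mul_pow]
  rw [Finset.prod_mul_distrib, Finset.prod_pow_eq_pow_sum, h1]
  ring

private theorem comp71 {k₀ κ : Type*} [Field k₀] [Field κ] [Algebra k₀ κ] {N : ℕ} (g : MvPolynomial (Fin N) k₀) (α β : Fin N → κ)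
    {F : Type*} [Field F] [Algebra κ F] [Algebra k₀ F] [IsScalarTower k₀ κ F] (x : F) :
    Polynomial.aeval x (aeval (fun j => Polynomial.C (α j) + Polynomial.C (β j) * Polynomial.X) g : Polynomial κ) =
      aeval (fun j => algebraMap κ F (α j) + algebraMap κ F (β j) * x) g := by
  let φ : Polynomial κ →ₐ[k₀] F := (Polynomial.aeval (R := κ) x).restrictScalars k₀
  have h3 := congrArg (fun ψ => ψ g) (MvPolynomial.comp_aeval (R := k₀)
    (fun j => Polynomial.C (α j) + Polynomial.C (β j) * Polynomial.X) φ)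
  have h4 : (fun j => φ (Polynomial.C (α j) + Polynomial.C (β j) * Polynomial.X)) =
      fun j => algebraMap κ F (α j) + algebraMap κ F (β j) * x := by
    funext j
    show Polynomial.aeval x (Polynomial.C (α j) + Polynomial.C (β j) * Polynomial.X) = _
    rw [map_add, map_mul, Polynomial.aeval_C, Polynomial.aeval_C, Polynomial.aeval_X]
  rw [h4] at h3
  exact h3

/-- The line is in `X`. -/
private theorem on71 {k₀ κ E : Type*} [Field k₀] [Field κ] [Field E] [Infinite κ] [Algebra k₀ κ] [Algebra κ E] [Algebra k₀ E]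
    [IsScalarTower k₀ κ E] {N : ℕ} (I : Ideal (MvPolynomial (Fin N) k₀)) (hI : ∀ p ∈ I, ∀ m, homogeneousComponent m p ∈ I)
    (y : E) (hy : Transcendental κ y) (α β : Fin N → κ)
    (hξ : OnX I fun j => algebraMap κ E (α j) + algebraMap κ E (β j) * y) (s t : κ) : OnX I fun j => s * α j + t * β j := by
  classical
  have hself : ∀ (a b : Fin N → κ) (t : κ), (fun j => algebraMap κ κ (a j) + algebraMap κ κ (b j) * t) = fun j => a j + b j * t := by
    intro a b t
    funext j
    rw [Algebra.algebraMap_self_apply, Algebra.algebraMap_self_apply]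
  -- homogeneous polynomials
  have hom : ∀ (d : ℕ) (g : MvPolynomial (Fin N) k₀), g ∈ I → g.IsHomogeneous d → ∀ s t : κ, aeval (fun j => s * α j + t * β j) g = 0 := by
    intro d g hg hgd
    -- `s = 1`
    have h1 : ∀ t : κ, aeval (fun j => α j + β j * t) g = 0 := by
      intro t
      have h5 := (transcendental_iff.1 hy) (aeval (fun j => Polynomial.C (α j) + Polynomial.C (β j) * Polynomial.X) g : Polynomial κ)
        (by rw [comp71]; exact hξ g hg)
      have h6 := comp71 g α β (F := κ) t
      rw [h5, map_zero, hself] at h6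
      exact h6.symm
    -- `s ≠ 0`
    have h2 : ∀ s t : κ, s ≠ 0 → aeval (fun j => s * α j + t * β j) g = 0 := by
      intro s t hs
      have h3 : (fun j => s * α j + t * β j) = fun j => s * (α j + β j * (t / s)) := by
        funext j
        field_simp
      rw [h3, scale71 g hgd, h1, mul_zero]
    intro s t
    by_cases hs : s = 0
    · -- the polynomial in `s`
      let P : Polynomial κ := aeval (fun j => Polynomial.C (t * β j) + Polynomial.C (α j) * Polynomial.X) g
      have hP : ∀ s : κ, s ≠ 0 → P.eval s = 0 := by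
        intro s hs
        have h3 := comp71 g (fun j => t * β j) α (F := κ) s
        rw [hself] at h3
        have h4 : Polynomial.aeval s P = P.eval s := by rw [Polynomial.aeval_def, Polynomial.eval₂_eq_eval_map, Algebra.algebraMap_self,
          Polynomial.map_id]
        rw [← h4]
        refine h3.trans ?_
        rw [← h2 s t hs]
        congr 1
        congr 1
        funext j
        ring
      have hP0 : P = 0 := by
        refine Polynomial.eq_zero_of_infinite_isRoot P ?_
        refine Set.Infinite.mono (s := {s : κ | s ≠ 0}) (fun s hs => hP s hs) ?_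
        have h3 : ({s : κ | s ≠ 0} : Set κ) = ({0} : Set κ)ᶜ := by
          ext s
          simp
        rw [h3]
        exact (Set.finite_singleton (0 : κ)).infinite_compl
      have h3 := comp71 g (fun j => t * β j) α (F := κ) s
      rw [hself] at h3
      have h4 : Polynomial.aeval s P = 0 := by rw [hP0, map_zero]
      rw [← h4]
      refine Eq.trans ?_ h3.symm
      congr 1
      congr 1
      funext j
      ring
    · exact h2 s t hs
  intro g hg
  rw [← sum_homogeneousComponent g, map_sum]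
  exact Finset.sum_eq_zero fun d _ => hom d _ (hI g hg d) (homogeneousComponent_isHomogeneous d g) s t

/-! ### the classes -/

private theorem trans71 {κ : Type*} [Field κ] {A₁ A₂ A₃ B₁ B₂ B₃ : κ} (h2 : A₂ ≠ 0 ∨ B₂ ≠ 0) (h12 : A₁ * B₂ = A₂ * B₁)
    (h23 : A₂ * B₃ = A₃ * B₂) : A₁ * B₃ = A₃ * B₁ := by
  rcases h2 with h | h
  · refine mul_left_cancel₀ h ?_
    linear_combination A₁ * h23 + A₃ * h12
  · refine mul_left_cancel₀ h ?_
    linear_combination B₃ * h12 + B₁ * h23

private theorem classes71 {p q r : ℕ} (S : Setoid (Fin q)) (hT : ∀ T : Finset (Fin q), (∀ i ∈ T, ∀ j ∈ T, S.r i j → i = j) → T.card ≤ p)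
    (h3 : ∀ i j m, S.r i j → S.r j m → i ≠ j → j ≠ m → i ≠ m → False)
    (h6 : ∀ i₁ j₁ i₂ j₂ i₃ j₃, S.r i₁ j₁ → S.r i₂ j₂ → S.r i₃ j₃ → i₁ ≠ j₁ → i₂ ≠ j₂ → i₃ ≠ j₃ → ¬ S.r i₁ i₂ → ¬ S.r i₁ i₃ →
      ¬ S.r i₂ i₃ → False)
    (hq : 2 * r + 2 ≤ q) (hp : p ≤ 2 * r) :
    q = 2 * r + 2 ∧ ∃ i j m o, S.r i j ∧ S.r m o ∧ i ≠ j ∧ m ≠ o ∧ ¬ S.r i m := by
  classical
  let f : Fin q → Quotient S := fun i => Quotient.mk S i
  have hf : ∀ i j, f i = f j ↔ S.r i j := fun i j => Quotient.eq
  let fib : Quotient S → Finset (Fin q) := fun x => Finset.univ.filter fun i => f i = x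
  have hmem : ∀ x i, i ∈ fib x ↔ f i = x := fun x i => by
    show i ∈ Finset.univ.filter (fun i => f i = x) ↔ _
    rw [Finset.mem_filter]
    exact ⟨fun h => h.2, fun h => ⟨Finset.mem_univ _, h⟩⟩
  have hQ : Fintype.card (Quotient S) ≤ p := by
    have h := hT (Finset.univ.image (Quotient.out : Quotient S → Fin q)) ?_
    · rwa [Finset.card_image_of_injective _ Quotient.out_injective, Finset.card_univ] at h
    · intro i hi j hj hij
      obtain ⟨x, _, rfl⟩ := Finset.mem_image.1 hi
      obtain ⟨y, _, rfl⟩ := Finset.mem_image.1 hj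
      have h := (hf _ _).2 hij
      rw [show f x.out = x from Quotient.out_eq x, show f y.out = y from Quotient.out_eq y] at h
      rw [h]
  have hsum : q = ∑ x : Quotient S, (fib x).card := by
    have h := Finset.card_eq_sum_card_fiberwise (f := f) (s := Finset.univ) (t := Finset.univ) (fun i _ => Finset.mem_univ _)
    rwa [Finset.card_univ, Fintype.card_fin] at h
  have hfib : ∀ x, (fib x).card ≤ 2 := by
    intro x
    by_contra hcon
    push Not at hcon
    obtain ⟨i, j, m, hi, hj, hm, hij, him, hjm⟩ := Finset.two_lt_card_iff.1 hcon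
    rw [hmem] at hi hj hm
    exact h3 i j m ((hf _ _).1 (hi.trans hj.symm)) ((hf _ _).1 (hj.trans hm.symm)) hij hjm him
  let D : Finset (Quotient S) := Finset.univ.filter fun x => 2 ≤ (fib x).card
  have hle : q ≤ p + D.card := by
    have h1 : ∑ x : Quotient S, (fib x).card ≤ ∑ x : Quotient S, (1 + if 2 ≤ (fib x).card then 1 else 0) := by
      refine Finset.sum_le_sum fun x _ => ?_
      have := hfib x
      split_ifs <;> omega
    have h2 : ∑ x : Quotient S, (1 + if 2 ≤ (fib x).card then 1 else 0) = Fintype.card (Quotient S) + D.card := by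
      rw [Finset.sum_add_distrib, Finset.sum_const, Finset.card_univ, smul_eq_mul, mul_one, Finset.card_filter]
    omega
  have hDmem : ∀ x ∈ D, ∃ i j, f i = x ∧ f j = x ∧ i ≠ j := by
    intro x hx
    have h1 : 1 < (fib x).card := (Finset.mem_filter.1 hx).2
    obtain ⟨i, hi, j, hj, hij⟩ := Finset.one_lt_card.1 h1
    exact ⟨i, j, (hmem x i).1 hi, (hmem x j).1 hj, hij⟩
  have hD2 : D.card ≤ 2 := by
    by_contra hcon
    push Not at hcon
    obtain ⟨x, y, z, hx, hy, hz, hxy, hxz, hyz⟩ := Finset.two_lt_card_iff.1 hcon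
    obtain ⟨i₁, j₁, hi₁, hj₁, h₁⟩ := hDmem x hx
    obtain ⟨i₂, j₂, hi₂, hj₂, h₂⟩ := hDmem y hy
    obtain ⟨i₃, j₃, hi₃, hj₃, h₃⟩ := hDmem z hz
    refine h6 i₁ j₁ i₂ j₂ i₃ j₃ ((hf _ _).1 (hi₁.trans hj₁.symm)) ((hf _ _).1 (hi₂.trans hj₂.symm)) ((hf _ _).1 (hi₃.trans hj₃.symm))
      h₁ h₂ h₃ (fun h => hxy ?_) (fun h => hxz ?_) (fun h => hyz ?_)
    · rw [← hi₁, ← hi₂]; exact (hf _ _).2 h
    · rw [← hi₁, ← hi₃]; exact (hf _ _).2 h
    · rw [← hi₂, ← hi₃]; exact (hf _ _).2 h
  refine ⟨by omega, ?_⟩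
  have hD1 : 1 < D.card := by omega
  obtain ⟨x, hx, y, hy, hxy⟩ := Finset.one_lt_card.1 hD1
  obtain ⟨i, j, hi, hj, hij⟩ := hDmem x hx
  obtain ⟨m, o, hm, ho, hmo⟩ := hDmem y hy
  refine ⟨i, j, m, o, (hf _ _).1 (hi.trans hj.symm), (hf _ _).1 (hm.trans ho.symm), hij, hmo, fun h => hxy ?_⟩
  rw [← hi, ← hm]
  exact (hf _ _).2 h

/-! ### the theorem -/

variable {k₀ : Type u} [Field k₀] [CharZero k₀] {N : ℕ} {I : Ideal (MvPolynomial (Fin (N + 1)) k₀)}

theorem line_nodes {k E : Type u} [Field k] [Field E] [Algebra k₀ k] [Algebra k E] [Algebra k₀ E] [IsScalarTower k₀ k E]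
    (hX : Surf I) (κ : IntermediateField k E) (hκ : AC κ) {q r : ℕ} (hq : 2 * r + 2 ≤ q) (l : Fin q → Fin (N + 1) → k)
    (hl : NodesOK I fun i c => algebraMap k κ (l i c)) (ξ : Fin (N + 1) → E) (h1 : ∃ j, ξ j = 1) (hn : ∃ j, ξ j ∉ κ) (hξ : OnX I ξ)
    (hlξ : ∀ i, lv (l i) ξ ≠ 0) (h2 : finrank κ (Submodule.span κ (Set.range ξ)) ≤ 2) {p : ℕ} (M : Fin p → Fin q → ℕ) (hp : p ≤ 2 * r)
    (hM : ∀ a : Fin q → ℤ, (∀ s, ∑ i, a i * M s i = 0) → ∑ i, a i = 0 ∧ wv l ξ a ∈ κ) :
    q = 2 * r + 2 ∧ Plane I ∧ ∃ (g : Fin 4 → Fin q) (z₁ z₂ : Fin (N + 1) → κ), Function.Injective g ∧ LinearIndependent κ ![z₁, z₂] ∧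
      lv (l (g 0)) z₁ = 0 ∧ lv (l (g 1)) z₁ = 0 ∧ lv (l (g 2)) z₂ = 0 ∧ lv (l (g 3)) z₂ = 0 ∧
      ∃ s t : E, ∀ j, ξ j = s * z₁ j + t * z₂ j := by
  classical
  have hrange : ∀ x : E, x ∈ Set.range (algebraMap κ E) ↔ x ∈ κ := by
    intro x
    constructor
    · rintro ⟨y, rfl⟩
      exact y.2
    · intro h
      exact ⟨⟨x, h⟩, rfl⟩
  obtain ⟨y, α, β, j₀, j₁, hyκ, hξαβ, hα0, hβ0, hα1, hβ1⟩ := param71 (κ := κ) ξ h1
    (by obtain ⟨j, hj⟩ := hn; exact ⟨j, fun h => hj ((hrange _).1 h)⟩) h2
  have hy : Transcendental κ y := fun h => hyκ ((hrange y).2 (hκ y h))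
  have hst : IsScalarTower k₀ κ E := IsScalarTower.of_algebraMap_eq fun x => rfl
  have hcz : CharZero κ := charZero_of_injective_algebraMap (algebraMap k₀ κ).injective
  have hL : ∀ s t : κ, OnX I fun j => s * α j + t * β j := by
    intro s t
    refine on71 (E := E) I hX.hom y hy α β ?_ s t
    have h3 : (fun j => algebraMap κ E (α j) + algebraMap κ E (β j) * y) = ξ := by
      funext j
      exact (hξαβ j).symm
    rw [h3]
    exact hξ
  -- the values of the forms
  let A : Fin q → κ := fun i => lv (l i) α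
  let B : Fin q → κ := fun i => lv (l i) β
  have hlin : ∀ i (s t : κ), lv (l i) (fun j => s * α j + t * β j) = s * A i + t * B i := by
    intro i s t
    show ∑ j, algebraMap k κ (l i j) * (s * α j + t * β j) = s * ∑ j, algebraMap k κ (l i j) * α j + t * ∑ j, algebraMap k κ (l i j) * β j
    rw [Finset.mul_sum, Finset.mul_sum, ← Finset.sum_add_distrib]
    exact Finset.sum_congr rfl fun j _ => by ring
  have hlξ' : ∀ i, lv (l i) ξ = algebraMap κ E (A i) + algebraMap κ E (B i) * y := by
    intro i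
    show ∑ j, algebraMap k E (l i j) * ξ j = algebraMap κ E (∑ j, algebraMap k κ (l i j) * α j) +
      algebraMap κ E (∑ j, algebraMap k κ (l i j) * β j) * y
    rw [map_sum, map_sum, Finset.sum_mul, ← Finset.sum_add_distrib]
    refine Finset.sum_congr rfl fun j _ => ?_
    rw [map_mul, map_mul, ← IsScalarTower.algebraMap_apply k κ E, hξαβ j]
    ring
  have hAB : ∀ i, A i ≠ 0 ∨ B i ≠ 0 := by
    intro i
    by_contra hcon
    push Not at hcon
    apply hlξ i
    rw [hlξ', hcon.1, hcon.2]
    simp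
  -- the equivalence relation
  let S : Setoid (Fin q) := ⟨fun i j => A i * B j = A j * B i, fun i => rfl, fun h => h.symm, fun {i j m} h h' => trans71 (hAB j) h h'⟩
  have hS : ∀ i j, S.r i j ↔ A i * B j = A j * B i := fun i j => Iff.rfl
  -- the points
  let pt : Fin q → Fin (N + 1) → κ := fun i j => B i * α j + (-A i) * β j
  have hpt0 : ∀ i, pt i ≠ 0 := by
    intro i h
    have h3 : pt i j₀ = B i := by
      show B i * α j₀ + (-A i) * β j₀ = B i
      rw [hα0, hβ0]
      ring
    have h4 : pt i j₁ = -A i := by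
      show B i * α j₁ + (-A i) * β j₁ = -A i
      rw [hα1, hβ1]
      ring
    rw [h] at h3 h4
    rcases hAB i with h5 | h5
    · exact h5 (neg_eq_zero.1 h4.symm)
    · exact h5 h3.symm
  have hptX : ∀ i, OnX I (pt i) := fun i => hL (B i) (-A i)
  have hptv : ∀ i j, S.r i j → lv (l j) (pt i) = 0 := by
    intro i j h
    have h3 := hlin j (B i) (-A i)
    rw [show (fun c => B i * α c + (-A i) * β c) = pt i from rfl] at h3
    rw [h3]
    have h4 := (hS i j).1 h
    linear_combination -h4
  have hlk : ∀ i (x : Fin (N + 1) → κ), lv (fun c => algebraMap k κ (l i c)) x = lv (l i) x := by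
    intro i x
    show ∑ j, algebraMap κ κ (algebraMap k κ (l i j)) * x j = ∑ j, algebraMap k κ (l i j) * x j
    exact Finset.sum_congr rfl fun j _ => by rw [Algebra.algebraMap_self_apply]
  have hptl : ∀ i j, S.r i j → lv (fun c => algebraMap k κ (l j c)) (pt i) = 0 := fun i j h => (hlk j _).trans (hptv i j h)
  have hS0 : ∀ i, S.r i i := fun i => rfl
  have hSs : ∀ i j, S.r i j → S.r j i := fun i j h => ((hS i j).1 h).symm
  -- the class structure
  obtain ⟨hq2, i, j, m, o, hij, hmo, hij', hmo', him⟩ := classes71 (p := p) (r := r) S (by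
      intro T hT
      by_contra hcon
      push Not at hcon
      obtain ⟨a, ha0, haT, haM⟩ := kernel71 M T hcon
      obtain ⟨hs, hw⟩ := hM a haM
      refine ha0 (rel71 y hy A B hAB a ?_ hs ⟨wv l ξ a, hw⟩ ?_)
      · intro i j hi hj h
        refine hT i ?_ j ?_ h
        · by_contra h5
          exact hi (haT i h5)
        · by_contra h5
          exact hj (haT j h5)
      · show _ = wv l ξ a
        show _ = ∏ i, lv (l i) ξ ^ a i
        exact Finset.prod_congr rfl fun i _ => by rw [hlξ'])
    (by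
      intro i j m hij hjm h h' h''
      refine hl.three (pt j) (hpt0 j) (hptX j) ![i, j, m] ?_ ⟨hptl j i (hSs _ _ hij), hptl j j (hS0 j), hptl j m hjm⟩
      intro a b hab
      fin_cases a <;> fin_cases b <;> first | rfl | (exfalso; simp at hab; first | exact h hab | exact h hab.symm | exact h' hab | exact h' hab.symm | exact h'' hab | exact h'' hab.symm))
    (by
      intro i₁ j₁ i₂ j₂ i₃ j₃ e₁ e₂ e₃ n₁ n₂ n₃ d₁₂ d₁₃ d₂₃
      have hne : ∀ a b c d, S.r a b → S.r c d → ¬ S.r a c → a ≠ c ∧ a ≠ d ∧ b ≠ c ∧ b ≠ d := by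
        intro a b c d hab hcd hac
        refine ⟨fun h => hac (h ▸ hS0 a), fun h => hac ?_, fun h => hac (h ▸ hab), fun h => hac ?_⟩
        · rw [h]; exact hSs _ _ hcd
        · exact S.trans' hab (h ▸ hSs _ _ hcd)
      obtain ⟨f1, f2, f3, f4⟩ := hne _ _ _ _ e₁ e₂ d₁₂
      obtain ⟨g1, g2, g3, g4⟩ := hne _ _ _ _ e₁ e₃ d₁₃
      obtain ⟨k1, k2, k3, k4⟩ := hne _ _ _ _ e₂ e₃ d₂₃
      have hind := hl.col (pt i₁) (pt i₂) (pt i₃) (hpt0 _) (hpt0 _) (hpt0 _) (hptX _) (hptX _) (hptX _) ![i₁, j₁, i₂, j₂, i₃, j₃] (by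
          intro a b hab
          fin_cases a <;> fin_cases b <;> first | rfl | (exfalso; simp at hab; first
            | exact n₁ hab | exact n₁ hab.symm | exact n₂ hab | exact n₂ hab.symm | exact n₃ hab | exact n₃ hab.symm
            | exact f1 hab | exact f1 hab.symm | exact f2 hab | exact f2 hab.symm | exact f3 hab | exact f3 hab.symm
            | exact f4 hab | exact f4 hab.symm | exact g1 hab | exact g1 hab.symm | exact g2 hab | exact g2 hab.symm
            | exact g3 hab | exact g3 hab.symm | exact g4 hab | exact g4 hab.symm | exact k1 hab | exact k1 hab.symm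
            | exact k2 hab | exact k2 hab.symm | exact k3 hab | exact k3 hab.symm | exact k4 hab | exact k4 hab.symm))
        (hptl _ _ (hS0 _)) (hptl _ _ e₁) (hptl _ _ (hS0 _)) (hptl _ _ e₂) (hptl _ _ (hS0 _)) (hptl _ _ e₃)
      -- three vectors in a plane
      have h3 := finrank_span_eq_card hind
      have h4 : Submodule.span κ (Set.range ![pt i₁, pt i₂, pt i₃]) ≤ Submodule.span κ {α, β} := by
        rw [Submodule.span_le]
        have hp : ∀ i, pt i ∈ Submodule.span κ {α, β} := by
          intro i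
          refine Submodule.mem_span_pair.2 ⟨B i, -A i, ?_⟩
          funext c
          rfl
        rintro x ⟨a, rfl⟩
        fin_cases a <;> exact hp _
      have hfin : FiniteDimensional κ (Submodule.span κ {α, β}) := FiniteDimensional.span_of_finite κ (Set.toFinite _)
      have h5 := Submodule.finrank_mono h4
      have h6 : finrank κ (Submodule.span κ {α, β}) ≤ 2 := by
        have h7 := finrank_span_finset_le_card (R := κ) ({α, β} : Finset (Fin (N + 1) → κ))
        rw [Finset.coe_pair] at h7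
        exact h7.trans (Finset.card_le_two)
      rw [h3, Fintype.card_fin] at h5
      omega) hq hp
  -- the determinant
  have hΔ : A i * B m - A m * B i ≠ 0 := fun h => him ((hS i m).2 (sub_eq_zero.1 h))
  have hind : LinearIndependent κ ![pt i, pt m] := by
    rw [LinearIndependent.pair_iff]
    intro s t h
    have h3 := congrFun h j₀
    have h4 := congrFun h j₁
    have h5 : s * B i + t * B m = 0 := by
      have : s * (B i * α j₀ + (-A i) * β j₀) + t * (B m * α j₀ + (-A m) * β j₀) = 0 := h3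
      rw [hα0, hβ0] at this
      linear_combination this
    have h6 : s * A i + t * A m = 0 := by
      have : s * (B i * α j₁ + (-A i) * β j₁) + t * (B m * α j₁ + (-A m) * β j₁) = 0 := h4
      rw [hα1, hβ1] at this
      linear_combination -this
    constructor
    · have h7 : s * (A i * B m - A m * B i) = 0 := by linear_combination B m * h6 - A m * h5
      exact (mul_eq_zero.1 h7).resolve_right hΔ
    · have h7 : t * (A i * B m - A m * B i) = 0 := by linear_combination A i * h5 - B i * h6
      exact (mul_eq_zero.1 h7).resolve_right hΔ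
  have hg : Function.Injective ![i, j, m, o] := by
    have c1 : i ≠ m := fun h => him (h ▸ hS0 i)
    have c2 : i ≠ o := fun h => him (h ▸ hSs _ _ hmo)
    have c3 : j ≠ m := fun h => him (h ▸ hij)
    have c4 : j ≠ o := fun h => him (S.trans' hij (h ▸ hSs _ _ hmo))
    intro a b hab
    fin_cases a <;> fin_cases b <;> first | rfl | (exfalso; simp at hab; first
      | exact hij' hab | exact hij' hab.symm | exact hmo' hab | exact hmo' hab.symm
      | exact c1 hab | exact c1 hab.symm | exact c2 hab | exact c2 hab.symm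
      | exact c3 hab | exact c3 hab.symm | exact c4 hab | exact c4 hab.symm)
  refine ⟨hq2, ?_, ![i, j, m, o], pt i, pt m, hg, hind, hptv _ _ (hS0 _), hptv _ _ hij, hptv _ _ (hS0 _), hptv _ _ hmo, ?_⟩
  · by_contra hP
    refine hl.line hP (pt i) (pt m) hind ?_ ![i, j, m, o] hg ⟨hptl _ _ (hS0 _), hptl _ _ hij, hptl _ _ (hS0 _), hptl _ _ hmo⟩
    intro s t
    have h3 := hL (s * B i + t * B m) (-(s * A i + t * A m))
    have h4 : (fun c => (s * B i + t * B m) * α c + -(s * A i + t * A m) * β c) = fun c => s * pt i c + t * pt m c := by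
      funext c
      show _ = s * (B i * α c + (-A i) * β c) + t * (B m * α c + (-A m) * β c)
      ring
    rw [h4] at h3
    exact h3
  · -- the coordinates
    let ψ := algebraMap κ E
    have hΔ' : ψ (A i) * ψ (B m) - ψ (A m) * ψ (B i) ≠ 0 := by
      rw [← map_mul, ← map_mul, ← map_sub]
      exact (map_ne_zero ψ).2 hΔ
    refine ⟨(-ψ (A m) - y * ψ (B m)) / (ψ (A i) * ψ (B m) - ψ (A m) * ψ (B i)),
      (ψ (A i) + y * ψ (B i)) / (ψ (A i) * ψ (B m) - ψ (A m) * ψ (B i)), fun c => ?_⟩
    have h3 : ((pt i c : κ) : E) = ψ (B i) * ψ (α c) - ψ (A i) * ψ (β c) := by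
      show ψ (B i * α c + (-A i) * β c) = _
      rw [map_add, map_mul, map_mul, map_neg]
      ring
    have h4 : ((pt m c : κ) : E) = ψ (B m) * ψ (α c) - ψ (A m) * ψ (β c) := by
      show ψ (B m * α c + (-A m) * β c) = _
      rw [map_add, map_mul, map_mul, map_neg]
      ring
    rw [h3, h4, hξαβ c, div_mul_eq_mul_div, div_mul_eq_mul_div, ← add_div, eq_div_iff hΔ']
    show (ψ (α c) + ψ (β c) * y) * _ = _
    ring


end

end Pool.Agent.TRI
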