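import Mathlib

/-!
# Subspaces of maximal slope: a finite set of subspaces suffices for all weights
-/

set_option autoImplicit false

namespace Pool.Agent.TRI.HNF

open Module

noncomputable section

variable {k V : Type*} [Field k] [AddCommGroup V] [Module k V] [FiniteDimensional k V]
  {ι : Type*} [Fintype ι]

/-- The weighted sum of the dimensions of the intersections with the subspaces `W i`. -/
def phi (W : ι → Submodule k V) (ρ : ι → ℝ) (E : Submodule k V) : ℝ :=
  ∑ i, ρ i * finrank k (E ⊓ W i : Submodule k V)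

/-- Finitely many subspaces contain one of maximal slope for all weights. -/
theorem exists_finite [Nontrivial V] (W : ι → Submodule k V) :
    ∃ UU : Set (Submodule k V), UU.Finite ∧ (∀ U ∈ UU, U ≠ ⊥) ∧
      ∀ ρ : ι → ℝ, ∃ U ∈ UU, ∀ E : Submodule k V,
        phi W ρ E * finrank k U ≤ phi W ρ U * finrank k E := by
  classical
  have hlt : ∀ E : Submodule k V, finrank k E < finrank k V + 1 := fun E =>
    Nat.lt_succ_of_le (Submodule.finrank_le E)
  obtain ⟨f, hf⟩ : ∃ f : Submodule k V → Fin (finrank k V + 1) × (ι → Fin (finrank k V + 1)),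
      f = fun E => (⟨finrank k E, hlt E⟩, fun i => ⟨finrank k (E ⊓ W i : Submodule k V), hlt _⟩) :=
    ⟨_, rfl⟩
  have hf1 : ∀ E F : Submodule k V, f E = f F → finrank k E = finrank k F ∧
      ∀ ρ : ι → ℝ, phi W ρ E = phi W ρ F := by
    intro E F h
    rw [hf] at h
    have h1 := congrArg Prod.fst h
    have h2 := congrArg Prod.snd h
    refine ⟨congrArg Fin.val h1, fun ρ => ?_⟩
    refine Finset.sum_congr rfl fun i _ => ?_
    have h3 := congrArg Fin.val (congrFun h2 i)
    simp only at h3
    rw [h3]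
  obtain ⟨g, hg⟩ : ∃ g : Fin (finrank k V + 1) × (ι → Fin (finrank k V + 1)) → Submodule k V,
      ∀ v, (∃ E : Submodule k V, E ≠ ⊥ ∧ f E = v) → g v ≠ ⊥ ∧ f (g v) = v := by
    refine ⟨fun v => if h : ∃ E : Submodule k V, E ≠ ⊥ ∧ f E = v then h.choose else ⊥, fun v h => ?_⟩
    simp only [dif_pos h]
    exact h.choose_spec
  refine ⟨{U | U ∈ Set.range g ∧ U ≠ ⊥}, (Set.finite_range g).subset fun U h => h.1,
    fun U h => h.2, fun ρ => ?_⟩
  have htop : (⊤ : Submodule k V) ≠ ⊥ := top_ne_bot
  have hne : {U | U ∈ Set.range g ∧ U ≠ ⊥}.Nonempty :=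
    ⟨g (f ⊤), ⟨_, rfl⟩, (hg (f ⊤) ⟨⊤, htop, rfl⟩).1⟩
  obtain ⟨U, hU, hmax⟩ := Set.exists_max_image {U | U ∈ Set.range g ∧ U ≠ ⊥}
    (fun U : Submodule k V => phi W ρ U / finrank k U)
    ((Set.finite_range g).subset fun U h => h.1) hne
  refine ⟨U, hU, fun E => ?_⟩
  by_cases hE : E = ⊥
  · subst hE
    have h0 : phi W ρ ⊥ = 0 := by
      unfold phi
      refine Finset.sum_eq_zero fun i _ => ?_
      rw [bot_inf_eq, finrank_bot]
      simp
    rw [h0, finrank_bot]
    simp
  · have h1 := hg (f E) ⟨E, hE, rfl⟩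
    have h2 := hmax (g (f E)) ⟨⟨_, rfl⟩, h1.1⟩
    have h3 := hf1 _ _ h1.2
    rw [h3.1, h3.2 ρ] at h2
    have h4 : (0 : ℝ) < finrank k E := by
      have : 0 < finrank k E := Nat.pos_of_ne_zero fun h => hE (Submodule.finrank_eq_zero.mp h)
      exact_mod_cast this
    have h5 : (0 : ℝ) < finrank k U := by
      have : 0 < finrank k U := Nat.pos_of_ne_zero fun h => hU.2 (Submodule.finrank_eq_zero.mp h)
      exact_mod_cast this
    rwa [div_le_div_iff₀ h4 h5] at h2

/-- The dimension of the image of a subspace. -/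
theorem finrank_map_add {M : Type*} [AddCommGroup M] [Module k M] (ev : V →ₗ[k] M)
    (U : Submodule k V) :
    finrank k (U.map ev) + finrank k (U ⊓ LinearMap.ker ev : Submodule k V) = finrank k U := by
  have h1 := (ev.domRestrict U).finrank_range_add_finrank_ker
  rw [LinearMap.range_domRestrict] at h1
  have h2 : finrank k (LinearMap.ker (ev.domRestrict U)) =
      finrank k (U ⊓ LinearMap.ker ev : Submodule k V) := by
    have h3 : (LinearMap.ker (ev.domRestrict U)).map U.subtype = U ⊓ LinearMap.ker ev := by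
      ext x
      constructor
      · rintro ⟨y, hy, rfl⟩
        exact ⟨y.2, hy⟩
      · rintro ⟨h4, h5⟩
        exact ⟨⟨x, h4⟩, h5, rfl⟩
    rw [← h3]
    exact (LinearEquiv.finrank_eq (Submodule.equivMapOfInjective _ U.injective_subtype _))
  rw [← h2]
  exact h1

/-- If `U` has maximal slope then the slope of its image under a linear map is at least the slope of
the whole space. -/
theorem map_slope {M : Type*} [AddCommGroup M] [Module k M] (W : ι → Submodule k V) (ρ : ι → ℝ)
    (U : Submodule k V) (hU0 : U ≠ ⊥)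
    (hU : ∀ E : Submodule k V, phi W ρ E * finrank k U ≤ phi W ρ U * finrank k E)
    (ev : V →ₗ[k] M) :
    (∑ i, ρ i * finrank k (W i)) * finrank k (U.map ev) ≤
      (∑ i, ρ i * finrank k ((U ⊓ W i).map ev)) * finrank k V := by
  obtain ⟨N, hN⟩ : ∃ N : Submodule k V, N = U ⊓ LinearMap.ker ev := ⟨_, rfl⟩
  have h1 := hU N
  have h2 := hU ⊤
  have h3 : phi W ρ ⊤ = ∑ i, ρ i * finrank k (W i) := by
    unfold phi
    refine Finset.sum_congr rfl fun i _ => ?_
    rw [top_inf_eq]
  have h4 : ∀ i, (finrank k ((U ⊓ W i).map ev) : ℝ) =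
      finrank k (U ⊓ W i : Submodule k V) - finrank k (N ⊓ W i : Submodule k V) := by
    intro i
    have h5 := finrank_map_add ev (U ⊓ W i)
    have h6 : U ⊓ W i ⊓ LinearMap.ker ev = N ⊓ W i := by
      rw [hN, inf_assoc, inf_assoc, inf_comm (W i)]
    rw [h6] at h5
    have h7 : ((finrank k ((U ⊓ W i).map ev) + finrank k (N ⊓ W i : Submodule k V) : ℕ) : ℝ) =
      finrank k (U ⊓ W i : Submodule k V) := by rw [h5]
    push_cast at h7
    linarith
  have h5 : (finrank k (U.map ev) : ℝ) = finrank k U - finrank k N := by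
    have h6 := finrank_map_add ev U
    rw [← hN] at h6
    have h7 : ((finrank k (U.map ev) + finrank k N : ℕ) : ℝ) = finrank k U := by rw [h6]
    push_cast at h7
    linarith
  have h6 : ∑ i, ρ i * (finrank k ((U ⊓ W i).map ev) : ℝ) = phi W ρ U - phi W ρ N := by
    unfold phi
    rw [← Finset.sum_sub_distrib]
    refine Finset.sum_congr rfl fun i _ => ?_
    rw [h4]
    ring
  rw [h3, finrank_top] at h2
  rw [h5, h6]
  have h7 : (0 : ℝ) < finrank k U := by
    have : 0 < finrank k U := Nat.pos_of_ne_zero fun h => hU0 (Submodule.finrank_eq_zero.mp h)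
    exact_mod_cast this
  have h8 : (0 : ℝ) ≤ finrank k U - finrank k N := by
    rw [← h5]
    exact Nat.cast_nonneg _
  have h9 : (0 : ℝ) ≤ finrank k V := Nat.cast_nonneg _
  have h10 : (∑ i, ρ i * (finrank k (W i) : ℝ)) * (finrank k U - finrank k N) * finrank k U ≤
      (phi W ρ U - phi W ρ N) * finrank k V * finrank k U := by
    have h11 := mul_le_mul_of_nonneg_right h2 h8
    have h12 := mul_le_mul_of_nonneg_right h1 h9
    nlinarith
  exact le_of_mul_le_mul_right h10 h7

end

end Pool.Agent.TRI.HNF
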